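import Mathlib

/-!
Passing from condition (P) in a ring with a central non-zero-divisor to the same condition for
elements `1 + x` of a unital overring.
-/

namespace Pool.Agent.Lib.MP_5dc4fa_al

/-- Condition (P), with `x ^ (n + 1)` written as an iterate, as in the frozen statement. -/
def CondP (R : Type*) [NonUnitalRing R] : Prop :=
  ∀ x y : R, ∃ n : ℕ, 1 ≤ n ∧
    (fun z : R => z * (x * y))^[n] (x * y) =
      (fun z : R => z * x)^[n] x * (fun z : R => z * y)^[n] y

theorem central_aux {U : Type*} [Ring U] (C a b : U) (hCc : ∀ u : U, C * u = u * C) (N : ℕ)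
    (h : (C * a * (C * b)) ^ N = (C * a) ^ N * (C * b) ^ N) :
    C ^ (2 * N) * ((a * b) ^ N - a ^ N * b ^ N) = 0 := by
  have hcomm1 : Commute C a := hCc _
  have hcomm2 : Commute C b := hCc _
  have hcomm3 : Commute C (a * b) := hCc _
  have e1 : C * a * (C * b) = (C * C) * (a * b) := by
    calc C * a * (C * b) = C * (a * C) * b := by simp only [mul_assoc]
      _ = C * (C * a) * b := by rw [hcomm1.eq]
      _ = (C * C) * (a * b) := by simp only [mul_assoc]
  rw [e1, (hcomm3.mul_left hcomm3).mul_pow, hcomm1.mul_pow, hcomm2.mul_pow] at h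
  have hc4 : Commute (C ^ N) (a ^ N) := hcomm1.pow_pow _ _
  have e2 : C ^ N * a ^ N * (C ^ N * b ^ N) = (C * C) ^ N * (a ^ N * b ^ N) := by
    calc C ^ N * a ^ N * (C ^ N * b ^ N) = C ^ N * (a ^ N * C ^ N) * b ^ N := by
          simp only [mul_assoc]
      _ = C ^ N * (C ^ N * a ^ N) * b ^ N := by rw [hc4.eq]
      _ = (C * C) ^ N * (a ^ N * b ^ N) := by
          rw [(Commute.refl C).mul_pow]; simp only [mul_assoc]
  rw [e2] at h
  rw [mul_sub, sub_eq_zero, pow_mul, pow_two]
  exact h

universe u

/-- Every ring embeds as the kernel of a ring homomorphism `U → ℤ` from a unital ring. -/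
theorem exists_unital (R : Type u) [NonUnitalRing R] :
    ∃ (U : Type u) (_ : Ring U) (ι : R →ₙ+* U) (π : U →+* ℤ), Function.Injective ι ∧
      ∀ w : U, π w = 0 ↔ ∃ r, ι r = w := by
  refine ⟨Unitization ℤ R, inferInstance,
    { toFun := fun r => Unitization.inr r
      map_mul' := fun x y => Unitization.inr_mul ℤ x y
      map_zero' := Unitization.inr_zero ℤ
      map_add' := fun x y => Unitization.inr_add ℤ x y },
    { toFun := fun w => w.fst
      map_one' := by simp
      map_mul' := fun x y => by simp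
      map_zero' := by simp
      map_add' := fun x y => by simp }, ?_, ?_⟩
  · intro x y h
    exact Unitization.inr_injective (R := ℤ) h
  · intro w
    constructor
    · intro h
      refine ⟨w.snd, ?_⟩
      change Unitization.inr w.snd = w
      have h' : w.fst = 0 := h
      ext
      · simp [h']
      · simp
    · rintro ⟨r, rfl⟩
      change (Unitization.inr r : Unitization ℤ R).fst = 0
      simp

variable {R : Type*} [NonUnitalRing R] {U : Type*} [Ring U]

theorem iota_pow_succ (ι : R →ₙ+* U) (x : R) (n : ℕ) :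
    (ι x) ^ (n + 1) = ι ((fun z : R => z * x)^[n] x) := by
  induction n with
  | zero => simp
  | succ n ih => rw [pow_succ, ih, Function.iterate_succ_apply', map_mul]

theorem regular_pow (ι : R →ₙ+* U) (hι : Function.Injective ι) {c : R}
    (hreg : ∀ r : R, c * r = 0 → r = 0) (k : ℕ) (f : R)
    (h : (ι c) ^ k * ι f = 0) : f = 0 := by
  induction k generalizing f with
  | zero =>
    rw [pow_zero, one_mul] at h
    exact hι (by rw [h, map_zero])
  | succ k ih =>
    rw [pow_succ, mul_assoc, ← map_mul] at h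
    exact hreg f (ih _ h)

/-- If `R` has a central non-zero-divisor and satisfies (P), then the elements `1 + x`, `x ∈ R`,
of the unital overring satisfy (P). -/
theorem condP_unital (ι : R →ₙ+* U) (π : U →+* ℤ) (hι : Function.Injective ι)
    (hπ : ∀ w : U, π w = 0 ↔ ∃ r, ι r = w)
    (hP : CondP R) (c : R) (hc : ∀ r : R, c * r = r * c)
    (hreg : ∀ r : R, c * r = 0 → r = 0) (x y : R) :
    ∃ n : ℕ, 2 ≤ n ∧ ((1 + ι x) * (1 + ι y)) ^ n = (1 + ι x) ^ n * (1 + ι y) ^ n := by
  obtain ⟨n, hn, h⟩ := hP (c + c * x) (c + c * y)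
  refine ⟨n + 1, by omega, ?_⟩
  have hCc : ∀ u : U, ι c * u = u * ι c := by
    intro u
    have h0 : π (u - (π u : U)) = 0 := by simp
    obtain ⟨r, hr⟩ := (hπ _).1 h0
    have hu : u = ι r + (π u : U) := by rw [hr]; abel
    rw [hu, mul_add, add_mul, ← map_mul, ← map_mul, hc r, (Int.cast_commute (π u) (ι c)).eq]
  have hcx : ∀ r : R, ι (c + c * r) = ι c * (1 + ι r) := by
    intro r
    rw [mul_add, mul_one, ← map_mul, map_add]
  have h1 := congrArg ι h
  rw [map_mul, ← iota_pow_succ, ← iota_pow_succ, ← iota_pow_succ, map_mul, hcx, hcx] at h1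
  have h2 := central_aux (ι c) (1 + ι x) (1 + ι y) hCc (n + 1) h1
  -- the difference lies in `R`
  have hk : π (((1 + ι x) * (1 + ι y)) ^ (n + 1) - (1 + ι x) ^ (n + 1) * (1 + ι y) ^ (n + 1)) =
      0 := by
    have h3 : ∀ r : R, π (1 + ι r) = 1 := by
      intro r
      rw [map_add, (hπ (ι r)).2 ⟨r, rfl⟩]
      simp
    rw [map_sub, map_mul, map_pow, map_pow, map_pow, map_mul, h3, h3]
    simp
  obtain ⟨f, hf⟩ := (hπ _).1 hk
  rw [← hf] at h2
  have hf0 := regular_pow ι hι hreg _ f h2
  rw [hf0, map_zero] at hf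
  exact sub_eq_zero.1 hf.symm

end Pool.Agent.Lib.MP_5dc4fa_al
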