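import Mathlib
import Pool.Agent.Lib.MP_5dc4fa_al.Newton

/-!
The filtration step: commutators of elements of positive filtration degree go arbitrarily deep in
a torsion-free filtration.
-/

namespace Pool.Agent.Lib.MP_5dc4fa_al

variable {U : Type*} [Ring U]

/-- A descending multiplicative filtration (degrees at least one) with torsion-free quotients. -/
structure TFFilt (F : ℕ → AddSubgroup U) : Prop where
  anti : Antitone F
  mul : ∀ i j : ℕ, 1 ≤ i → 1 ≤ j → ∀ a b : U, a ∈ F i → b ∈ F j → a * b ∈ F (i + j)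
  tf : ∀ (i n : ℕ) (r : U), n ≠ 0 → n • r ∈ F i → r ∈ F i

variable {F : ℕ → AddSubgroup U} {x y : U} {L : ℕ}

theorem TFFilt.comm_pow (hF : TFFilt F) (hL : 1 ≤ L) (hx : x ∈ F 1) (hy : y ∈ F 1)
    (hc : x * y - y * x ∈ F L) (k : ℕ) :
    y * (x + y + x * y) ^ (k + 1) - (x + y + x * y) ^ (k + 1) * y ∈ F (L + k) := by
  have hz : x + y + x * y ∈ F 1 :=
    add_mem (add_mem hx hy) (hF.anti (by norm_num) (hF.mul 1 1 le_rfl le_rfl x y hx hy))
  have hyz : y * (x + y + x * y) - (x + y + x * y) * y ∈ F L := by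
    have : y * (x + y + x * y) - (x + y + x * y) * y =
        -((x * y - y * x) + (x * y - y * x) * y) := by
      noncomm_ring
    rw [this]
    exact neg_mem (add_mem hc (hF.anti (Nat.le_succ L) (hF.mul L 1 hL le_rfl _ _ hc hy)))
  have hzk : ∀ k : ℕ, (x + y + x * y) ^ (k + 1) ∈ F (k + 1) := by
    intro k
    induction k with
    | zero => simpa using hz
    | succ k ih =>
      rw [pow_succ]
      exact hF.mul (k + 1) 1 (by omega) le_rfl _ _ ih hz
  induction k with
  | zero => simpa using hyz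
  | succ k ih =>
    set z := x + y + x * y with hzdef
    have : y * z ^ (k + 1 + 1) - z ^ (k + 1 + 1) * y =
        (y * z ^ (k + 1) - z ^ (k + 1) * y) * z + z ^ (k + 1) * (y * z - z * y) := by
      rw [pow_succ z (k + 1)]
      noncomm_ring
    rw [this]
    refine add_mem ?_ ?_
    · exact hF.mul (L + k) 1 (by omega) le_rfl _ _ ih hz
    · have := hF.mul (k + 1) L (by omega) hL _ _ (hzk k) hyz
      rwa [show k + 1 + L = L + (k + 1) by omega] at this

theorem TFFilt.psi_mem (hF : TFFilt F) {s : ℕ} (hs : 1 ≤ s) {r : U} (hx : x ∈ F 1) (hy : y ∈ F 1)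
    (hr : r ∈ F s) : psi x y r ∈ F (s + 1) := by
  rw [psi_apply]
  have h1 : x * r ∈ F (s + 1) := by
    have := hF.mul 1 s le_rfl hs _ _ hx hr
    rwa [add_comm] at this
  refine add_mem (add_mem h1 (hF.mul s 1 hs le_rfl _ _ hr hy)) ?_
  exact hF.anti (Nat.le_succ _) (hF.mul (s + 1) 1 (by omega) le_rfl _ _ h1 hy)

theorem TFFilt.coeffA_mem (hF : TFFilt F) (hL : 1 ≤ L) (hx : x ∈ F 1) (hy : y ∈ F 1)
    (hc : x * y - y * x ∈ F L) (k : ℕ) : coeffA x y (k + 2) ∈ F (L + k) := by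
  have hone : ∀ s : ℕ, 1 ≤ s → ∀ w ∈ F s, (1 + x) * w ∈ F s := by
    intro s hs w hw
    rw [add_mul, one_mul]
    refine add_mem hw ?_
    have := hF.mul 1 s le_rfl hs _ _ hx hw
    exact hF.anti (by omega) this
  induction k with
  | zero =>
    rw [coeffA_two]
    have h1 : y * x - x * y ∈ F L := by
      rw [← neg_sub]; exact neg_mem hc
    have h2 := hone L hL _ h1
    rw [mul_add, mul_one]
    exact add_mem h2 (hF.anti (Nat.le_succ L) (hF.mul L 1 hL le_rfl _ _ h2 hy))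
  | succ k ih =>
    rw [show k + 1 + 2 = (k + 2) + 1 by ring, coeffA_succ]
    refine add_mem ?_ ?_
    · exact hF.psi_mem (s := L + k) (by omega) hx hy ih
    · exact hone (L + (k + 1)) (by omega) _ (hF.comm_pow hL hx hy hc (k + 1))

theorem TFFilt.step (hF : TFFilt F) (hL : 1 ≤ L) (hx : x ∈ F 1) (hy : y ∈ F 1)
    (hc : x * y - y * x ∈ F L)
    (hP : ∃ n : ℕ, 2 ≤ n ∧ ((1 + x) * (1 + y)) ^ n = (1 + x) ^ n * (1 + y) ^ n) :
    x * y - y * x ∈ F (L + 1) := by
  obtain ⟨n, hn, hP⟩ := hP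
  have hN := newton x y n
  rw [hP, sub_self] at hN
  obtain ⟨m, rfl⟩ : ∃ m, n = m + 2 := ⟨n - 2, by omega⟩
  rw [show m + 2 + 1 = (m + 1) + 1 + 1 by ring, Finset.sum_range_succ', Finset.sum_range_succ',
    Finset.sum_range_succ'] at hN
  simp only [coeffA_zero, coeffA_one, smul_zero, add_zero, zero_add] at hN
  have hsum : ∑ k ∈ Finset.range m, (m + 2).choose (k + 1 + 1 + 1) • coeffA x y (k + 1 + 1 + 1) ∈
      F (L + 1) := by
    refine sum_mem fun k _ => nsmul_mem ?_ _
    have := hF.coeffA_mem hL hx hy hc (k + 1)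
    exact hF.anti (by omega) this
  have h2 : (m + 2).choose 2 • coeffA x y 2 ∈ F (L + 1) := by
    have : (m + 2).choose 2 • coeffA x y 2 =
        -∑ k ∈ Finset.range m, (m + 2).choose (k + 1 + 1 + 1) • coeffA x y (k + 1 + 1 + 1) := by
      rw [eq_neg_iff_add_eq_zero, add_comm]
      exact hN.symm
    rw [this]
    exact neg_mem hsum
  have h3 := hF.tf _ _ _ (Nat.choose_pos (by omega)).ne' h2
  rw [coeffA_two] at h3
  have hfin : x * y - y * x = -((1 + x) * (y * x - x * y) * (1 + y)) -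
      (x * (x * y - y * x) + (x * y - y * x) * y + (x * (x * y - y * x)) * y) := by
    noncomm_ring
  rw [hfin]
  have h4 : x * (x * y - y * x) ∈ F (L + 1) := by
    have := hF.mul 1 L le_rfl hL _ _ hx hc
    rwa [add_comm] at this
  refine sub_mem (neg_mem h3) (add_mem (add_mem h4 (hF.mul L 1 hL le_rfl _ _ hc hy)) ?_)
  exact hF.anti (Nat.le_succ _) (hF.mul (L + 1) 1 (by omega) le_rfl _ _ h4 hy)

theorem TFFilt.comm_mem (hF : TFFilt F) (hx : x ∈ F 1) (hy : y ∈ F 1)
    (hP : ∃ n : ℕ, 2 ≤ n ∧ ((1 + x) * (1 + y)) ^ n = (1 + x) ^ n * (1 + y) ^ n) (L : ℕ) :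
    x * y - y * x ∈ F L := by
  have key : ∀ L : ℕ, x * y - y * x ∈ F (L + 1) := by
    intro L
    induction L with
    | zero =>
      refine hF.anti (show 0 + 1 ≤ 2 by norm_num) (sub_mem ?_ ?_)
      · exact hF.mul 1 1 le_rfl le_rfl _ _ hx hy
      · exact hF.mul 1 1 le_rfl le_rfl _ _ hy hx
    | succ L ih => exact hF.step (by omega) hx hy ih hP
  exact hF.anti (Nat.le_succ L) (key L)

end Pool.Agent.Lib.MP_5dc4fa_al
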