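import Mathlib
import Pool.Agent.Lib.MP_5dc4fa_al.Filt

/-!
Square-zero elements in rings with condition (P) for unipotent pairs.
-/

namespace Pool.Agent.Lib.MP_5dc4fa_al

/-- In a torsion-free abelian group, a polynomial function on `ℕ` that vanishes identically has
zero coefficients. -/
theorem coeff_zero_of_vanish {M : Type*} [AddCommGroup M]
    (htf : ∀ (n : ℕ) (m : M), n ≠ 0 → n • m = 0 → m = 0) (d : ℕ) (c : ℕ → M)
    (h : ∀ t : ℕ, ∑ j ∈ Finset.range d, t ^ j • c j = 0) : ∀ j < d, c j = 0 := by
  induction d generalizing c with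
  | zero => intro j hj; omega
  | succ d ih =>
    have hlow : ∀ j < d, c j = 0 := by
      have h2 : ∀ t : ℕ, ∑ j ∈ Finset.range d, t ^ j • ((2 ^ d - 2 ^ j) • c j) = 0 := by
        intro t
        have e1 := h t
        have e2 := h (2 * t)
        rw [Finset.sum_range_succ] at e1 e2
        have e3 : 2 ^ d • (∑ j ∈ Finset.range d, t ^ j • c j) =
            ∑ j ∈ Finset.range d, (2 * t) ^ j • c j := by
          have e4 : 2 ^ d • (t ^ d • c d) = (2 * t) ^ d • c d := by
            rw [← mul_smul, mul_pow]
          have e5 := congrArg (fun m => 2 ^ d • m) e1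
          simp only [smul_add, smul_zero] at e5
          rw [e4] at e5
          exact add_right_cancel (e5.trans e2.symm)
        have e6 : ∀ j ∈ Finset.range d, t ^ j • ((2 ^ d - 2 ^ j) • c j) =
            2 ^ d • (t ^ j • c j) - (2 * t) ^ j • c j := by
          intro j hj
          have hle : 2 ^ j ≤ 2 ^ d :=
            Nat.pow_le_pow_right (by norm_num) (Finset.mem_range.1 hj).le
          rw [← mul_smul, ← mul_smul, eq_sub_iff_add_eq, ← add_smul]
          congr 1
          rw [mul_pow, Nat.mul_sub, mul_comm (2 ^ j) (t ^ j),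
            Nat.sub_add_cancel (Nat.mul_le_mul_left _ hle), mul_comm]
        rw [Finset.sum_congr rfl e6, Finset.sum_sub_distrib, ← Finset.smul_sum, e3, sub_self]
      intro j hj
      have h3 := ih _ h2 j hj
      refine htf _ _ ?_ h3
      have : 2 ^ j < 2 ^ d := Nat.pow_lt_pow_right (by norm_num) hj
      omega
    intro j hj
    rcases Nat.lt_succ_iff_lt_or_eq.1 hj with hj | rfl
    · exact hlow j hj
    · have h1 := h 1
      rw [Finset.sum_range_succ, Finset.sum_eq_zero] at h1
      · simpa using h1
      · intro i hi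
        rw [hlow i (Finset.mem_range.1 hi), smul_zero]

variable {U : Type*} [Ring U]

/-- The product of a word in two letters. -/
def word (a b : U) (l : List Bool) : U := (l.map fun t => if t then a else b).prod

theorem word_append (a b : U) (l l' : List Bool) :
    word a b (l ++ l') = word a b l * word a b l' := by
  simp [word]

theorem word_cases {a b : U} (ha : a * a = 0) (hb : b * b = 0) (m : ℕ) (l : List Bool)
    (hl : 2 * m ≤ l.length) :
    word a b l = 0 ∨ (∃ s, word a b l = (a * b) ^ m * s) ∨ (∃ s, word a b l = (b * a) ^ m * s) := by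
  induction m generalizing l with
  | zero => exact Or.inr (Or.inl ⟨word a b l, by simp⟩)
  | succ m ih =>
    match l, hl with
    | [], hl => simp at hl
    | [_], hl => simp at hl; omega
    | t₁ :: t₂ :: l', hl =>
      have hl' : 2 * m ≤ l'.length := by simp at hl; omega
      have hw : word a b (t₁ :: t₂ :: l') =
          (if t₁ then a else b) * ((if t₂ then a else b) * word a b l') := by
        simp [word]
      rw [hw]
      have IH := ih l' hl'
      cases t₁ <;> cases t₂
      · left
        simp [← mul_assoc, hb]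
      · rcases IH with h | ⟨s, h⟩ | ⟨s, h⟩
        · left; simp [h]
        · rcases m with _ | m
          · right; right
            exact ⟨s, by rw [h]; simp [mul_assoc]⟩
          · left
            rw [h, pow_succ']
            simp only [Bool.false_eq_true, ↓reduceIte]
            calc b * (a * (a * b * (a * b) ^ m * s)) = b * (a * a) * b * (a * b) ^ m * s := by
                  simp only [mul_assoc]
              _ = 0 := by rw [ha]; simp
        · right; right
          exact ⟨s, by rw [h, pow_succ']; simp [mul_assoc]⟩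
      · rcases IH with h | ⟨s, h⟩ | ⟨s, h⟩
        · left; simp [h]
        · right; left
          exact ⟨s, by rw [h, pow_succ']; simp [mul_assoc]⟩
        · rcases m with _ | m
          · right; left
            exact ⟨s, by rw [h]; simp [mul_assoc]⟩
          · left
            rw [h, pow_succ']
            simp only [Bool.false_eq_true, ↓reduceIte]
            calc a * (b * (b * a * (b * a) ^ m * s)) = a * (b * b) * a * (b * a) ^ m * s := by
                  simp only [mul_assoc]
              _ = 0 := by rw [hb]; simp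
      · left
        simp [← mul_assoc, ha]

/-- Additive span of words of length at least `i`. -/
def wspan (a b : U) (i : ℕ) : AddSubgroup U :=
  AddSubgroup.closure {w | ∃ l : List Bool, i ≤ l.length ∧ w = word a b l}

theorem wspan_anti (a b : U) : Antitone (wspan a b) := by
  intro i j hij
  refine AddSubgroup.closure_mono ?_
  rintro w ⟨l, hl, rfl⟩
  exact ⟨l, hij.trans hl, rfl⟩

theorem wspan_mul (a b : U) (i j : ℕ) (r s : U) (hr : r ∈ wspan a b i) (hs : s ∈ wspan a b j) :
    r * s ∈ wspan a b (i + j) := by
  induction hr using AddSubgroup.closure_induction with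
  | mem r hr =>
    obtain ⟨l, hl, rfl⟩ := hr
    induction hs using AddSubgroup.closure_induction with
    | mem s hs =>
      obtain ⟨l', hl', rfl⟩ := hs
      refine AddSubgroup.subset_closure ⟨l ++ l', ?_, ?_⟩
      · simp; omega
      · rw [word_append]
    | zero => rw [mul_zero]; exact zero_mem _
    | add s s' _ _ h h' => rw [mul_add]; exact add_mem h h'
    | neg s _ h => rw [mul_neg]; exact neg_mem h
  | zero => rw [zero_mul]; exact zero_mem _
  | add r r' _ _ h h' => rw [add_mul]; exact add_mem h h'
  | neg r _ h => rw [neg_mul]; exact neg_mem h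

/-- The isolator of an additive subgroup. -/
def isolator (W : AddSubgroup U) : AddSubgroup U where
  carrier := {r | ∃ n : ℕ, n ≠ 0 ∧ n • r ∈ W}
  zero_mem' := ⟨1, one_ne_zero, by simp⟩
  add_mem' := by
    rintro r s ⟨n, hn, hr⟩ ⟨m, hm, hs⟩
    refine ⟨n * m, mul_ne_zero hn hm, ?_⟩
    rw [smul_add]
    refine add_mem ?_ ?_
    · rw [mul_comm, mul_smul]; exact nsmul_mem hr m
    · rw [mul_smul]; exact nsmul_mem hs n
  neg_mem' := by
    rintro r ⟨n, hn, hr⟩
    exact ⟨n, hn, by rw [smul_neg]; exact neg_mem hr⟩

theorem mem_isolator {W : AddSubgroup U} {r : U} :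
    r ∈ isolator W ↔ ∃ n : ℕ, n ≠ 0 ∧ n • r ∈ W := Iff.rfl

theorem tffilt_words (a b : U) : TFFilt (fun i => isolator (wspan a b i)) := by
  refine ⟨?_, ?_, ?_⟩
  · rintro i j hij r ⟨n, hn, hr⟩
    exact ⟨n, hn, wspan_anti a b hij hr⟩
  · rintro i j - - r s ⟨n, hn, hr⟩ ⟨m, hm, hs⟩
    refine ⟨n * m, mul_ne_zero hn hm, ?_⟩
    have := wspan_mul a b i j _ _ hr hs
    rwa [smul_mul_smul_comm] at this
  · rintro i n r hn ⟨m, hm, hr⟩
    exact ⟨m * n, mul_ne_zero hm hn, by rw [mul_smul]; exact hr⟩

/-- Square-zero elements `a`, `b` with `a * b` nilpotent commute, if (P) holds for the pair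
`1 + a`, `1 + b` and the ring is torsion-free. -/
theorem commute_of_sq_zero (htf : ∀ (n : ℕ) (r : U), n ≠ 0 → n • r = 0 → r = 0)
    {a b : U} (ha : a * a = 0) (hb : b * b = 0) (hab : ∃ m : ℕ, (a * b) ^ m = 0)
    (hP : ∃ n : ℕ, 2 ≤ n ∧ ((1 + a) * (1 + b)) ^ n = (1 + a) ^ n * (1 + b) ^ n) :
    a * b = b * a := by
  obtain ⟨m, hm⟩ := hab
  have hba : (b * a) ^ (m + 1) = 0 := by
    have : ∀ k : ℕ, (b * a) ^ (k + 1) = b * (a * b) ^ k * a := by
      intro k
      induction k with
      | zero => simp
      | succ k ih => rw [pow_succ, ih, pow_succ (a * b) k]; simp only [mul_assoc]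
    rw [this, hm]; simp
  have hzero : ∀ l : List Bool, 2 * (m + 1) ≤ l.length → word a b l = 0 := by
    intro l hl
    rcases word_cases ha hb (m + 1) l hl with h | ⟨s, h⟩ | ⟨s, h⟩
    · exact h
    · rw [h, pow_succ, hm]; simp
    · rw [h, hba]; simp
  have hbot : ∀ r ∈ wspan a b (2 * (m + 1)), r = 0 := by
    intro r hr
    induction hr using AddSubgroup.closure_induction with
    | mem r hr => obtain ⟨l, hl, rfl⟩ := hr; exact hzero l hl
    | zero => rfl
    | add r s _ _ h h' => rw [h, h', add_zero]
    | neg r _ h => rw [h, neg_zero]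
  have ha1 : a ∈ isolator (wspan a b 1) :=
    ⟨1, one_ne_zero, by
      rw [one_smul]; exact AddSubgroup.subset_closure ⟨[true], by simp, by simp [word]⟩⟩
  have hb1 : b ∈ isolator (wspan a b 1) :=
    ⟨1, one_ne_zero, by
      rw [one_smul]; exact AddSubgroup.subset_closure ⟨[false], by simp, by simp [word]⟩⟩
  obtain ⟨n, hn, h⟩ := (tffilt_words a b).comm_mem ha1 hb1 hP (2 * (m + 1))
  exact sub_eq_zero.1 (htf n _ hn (hbot _ h))

/-- If a square-zero element `a` commutes with all its conjugates by `1 + t * q`, `t ∈ ℕ`, with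
`q` nilpotent, then `a * q * a = 0`. -/
theorem aqa_eq_zero (htf : ∀ (n : ℕ) (r : U), n ≠ 0 → n • r = 0 → r = 0)
    {a q : U} (ha : a * a = 0) {k : ℕ} (hq : q ^ k = 0)
    (hcomm : ∀ t : ℕ, a * ((1 + t • q) * a * ∑ i ∈ Finset.range k, (-(t • q)) ^ i) =
      ((1 + t • q) * a * ∑ i ∈ Finset.range k, (-(t • q)) ^ i) * a) : a * q * a = 0 := by
  -- coefficient sequence
  let c : ℕ → U := fun j => match j with
    | 0 => - (a * a)
    | j + 1 => a * q * a * (-q) ^ j - a * (-q) ^ (j + 1) * a - q * a * (-q) ^ j * a
  have hc : ∀ t : ℕ, ∑ j ∈ Finset.range (k + 1), t ^ j • c j = 0 := by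
    intro t
    have hS : ∑ i ∈ Finset.range k, (-(t • q)) ^ i = ∑ i ∈ Finset.range k, t ^ i • (-q) ^ i := by
      refine Finset.sum_congr rfl fun i _ => ?_
      rw [← smul_neg, smul_pow]
    have h1 := hcomm t
    rw [hS] at h1
    set S := ∑ i ∈ Finset.range k, t ^ i • (-q) ^ i with hSdef
    have h2 : t • (a * q * a * S) = a * S * a + t • (q * a * S * a) := by
      have e1 : a * ((1 + t • q) * a * S) = t • (a * q * a * S) := by
        rw [add_mul, one_mul, add_mul, mul_add, ← mul_assoc a a S, ha, zero_mul, zero_add]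
        simp only [smul_mul_assoc, mul_smul_comm, mul_assoc]
      have e2 : (1 + t • q) * a * S * a = a * S * a + t • (q * a * S * a) := by
        rw [add_mul, one_mul, add_mul, add_mul]
        simp only [smul_mul_assoc, mul_assoc]
      rw [← e1, ← e2]
      exact h1
    -- expand the three sums
    have e3 : t • (a * q * a * S) = ∑ j ∈ Finset.range k, t ^ (j + 1) • (a * q * a * (-q) ^ j) := by
      rw [hSdef, Finset.mul_sum, Finset.smul_sum]
      refine Finset.sum_congr rfl fun j _ => ?_
      rw [mul_smul_comm, ← mul_smul, ← pow_succ']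
    have e4 : t • (q * a * S * a) = ∑ j ∈ Finset.range k, t ^ (j + 1) • (q * a * (-q) ^ j * a) := by
      rw [hSdef, Finset.mul_sum, Finset.sum_mul, Finset.smul_sum]
      refine Finset.sum_congr rfl fun j _ => ?_
      rw [mul_smul_comm, smul_mul_assoc, ← mul_smul, ← pow_succ']
    have e5 : a * S * a = a * a + ∑ j ∈ Finset.range k, t ^ (j + 1) • (a * (-q) ^ (j + 1) * a) := by
      have e6 : a * S * a = ∑ j ∈ Finset.range (k + 1), t ^ j • (a * (-q) ^ j * a) := by
        rw [hSdef, Finset.sum_range_succ, neg_pow q k, hq, Finset.mul_sum, Finset.sum_mul]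
        simp only [mul_zero, zero_mul, smul_zero, add_zero]
        refine Finset.sum_congr rfl fun j _ => ?_
        rw [mul_smul_comm, smul_mul_assoc]
      rw [e6, Finset.sum_range_succ', pow_zero, pow_zero, mul_one, one_smul, add_comm]
    rw [Finset.sum_range_succ']
    simp only [c, smul_sub, Finset.sum_sub_distrib, pow_zero, one_smul]
    rw [← e3, ← e4]
    rw [e5] at h2
    rw [h2]
    abel
  have h1 := coeff_zero_of_vanish htf (k + 1) c hc 1
  rcases k with _ | k
  · -- the ring is trivial
    rw [pow_zero] at hq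
    calc a * q * a = a * q * a * 1 := (mul_one _).symm
      _ = 0 := by rw [hq, mul_zero]
  · have h2 := h1 (by omega)
    have h3 : c 1 = 2 • (a * q * a) := by
      simp only [c, pow_zero, mul_one, zero_add, pow_one]
      rw [mul_assoc q a a, ha]
      noncomm_ring
    rw [h3] at h2
    exact htf 2 _ (by norm_num) h2

end Pool.Agent.Lib.MP_5dc4fa_al
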