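import Mathlib
import Pool.Agent.Lib.MP_5dc4fa_al.Unit

section

/-!
The Jacobson radical of a countably generated algebra over an uncountable field is nil.
-/

namespace Pool.Agent.Lib.MP_5dc4fa_al

open Polynomial

section radical

variable {A : Type*} [Ring A]

theorem exists_left_inv {x : A} (hx : x ∈ Ring.jacobson A) : ∃ z : A, z * (1 + x) = 1 := by
  rw [← Ideal.jacobson_bot, Ideal.mem_jacobson_iff] at hx
  obtain ⟨z, hz⟩ := hx 1
  refine ⟨z, ?_⟩
  rw [Ideal.mem_bot, sub_eq_zero, mul_one] at hz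
  rw [mul_add, mul_one, add_comm, hz]

theorem isUnit_one_add {x : A} (hx : x ∈ Ring.jacobson A) : IsUnit (1 + x) := by
  obtain ⟨z, hz⟩ := exists_left_inv hx
  have h1 : z = 1 + (-(z * x)) := by
    rw [mul_add, mul_one] at hz
    rw [← hz]
    abel
  have h2 : -(z * x) ∈ Ring.jacobson A :=
    (Ring.jacobson A).neg_mem ((Ring.jacobson A).mul_mem_left _ hx)
  obtain ⟨w, hw⟩ := exists_left_inv h2
  rw [← h1] at hw
  have h3 : w = 1 + x := by
    calc w = w * (z * (1 + x)) := by rw [hz, mul_one]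
      _ = (w * z) * (1 + x) := by rw [mul_assoc]
      _ = 1 + x := by rw [hw, one_mul]
  rw [h3] at hw
  exact ⟨⟨1 + x, z, hw, hz⟩, rfl⟩

end radical

section amitsur

variable {k : Type*} [Field k] {A : Type*} [Ring A] [Algebra k A]

theorem linearIndependent_inv {z : A} (hz : Transcendental k z)
    (u : {c : k // c ≠ 0} → Aˣ) (hu : ∀ c, ((u c : Aˣ) : A) = 1 - (c : k) • z) :
    LinearIndependent k (fun c : {c : k // c ≠ 0} => (((u c)⁻¹ : Aˣ) : A)) := by
  classical
  rw [linearIndependent_iff']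
  intro s g hg i hi
  set L : {c : k // c ≠ 0} → k[X] := fun c => 1 - C (c : k) * X with hL
  have hLz : ∀ c, aeval z (L c) = (u c : A) := by
    intro c
    rw [hL, hu]
    simp [Algebra.smul_def]
  have h1 : ∀ j ∈ s, aeval z (∏ l ∈ s, L l) * (((u j)⁻¹ : Aˣ) : A) =
      aeval z (∏ l ∈ s.erase j, L l) := by
    intro j hj
    rw [← Finset.prod_erase_mul _ _ hj, map_mul, hLz, mul_assoc, Units.mul_inv, mul_one]
  have h2 : aeval z (∑ j ∈ s, C (g j) * ∏ l ∈ s.erase j, L l) = 0 := by
    rw [map_sum]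
    have : aeval z (∏ l ∈ s, L l) * ∑ j ∈ s, g j • (((u j)⁻¹ : Aˣ) : A) = 0 := by
      rw [hg, mul_zero]
    rw [← this, Finset.mul_sum]
    refine Finset.sum_congr rfl fun j hj => ?_
    rw [map_mul, ← h1 j hj, aeval_C, mul_smul_comm, Algebra.smul_def]
  have h3 : ∑ j ∈ s, C (g j) * ∏ l ∈ s.erase j, L l = 0 := by
    by_contra h
    exact hz ⟨_, h, h2⟩
  have h4 := congrArg (eval ((i : k)⁻¹)) h3
  have hi0 : (i : k) ≠ 0 := i.2
  rw [eval_finsetSum, Finset.sum_eq_single i] at h4
  · rw [eval_mul, eval_C, eval_zero] at h4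
    refine (mul_eq_zero.1 h4).resolve_right ?_
    rw [eval_prod]
    refine Finset.prod_ne_zero_iff.2 fun l hl => ?_
    rw [hL]
    simp only [eval_sub, eval_one, eval_mul, eval_C, eval_X]
    intro h
    have h5 : (l : k) * (i : k)⁻¹ = 1 := (sub_eq_zero.1 h).symm
    have h6 : (l : k) = i := by
      field_simp at h5
      exact h5
    exact (Finset.mem_erase.1 hl).1 (Subtype.ext h6)
  · intro j hj hji
    rw [eval_mul, eval_prod]
    have : ∏ l ∈ s.erase j, eval ((i : k)⁻¹) (L l) = 0 := by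
      refine Finset.prod_eq_zero (Finset.mem_erase.2 ⟨fun h => hji h.symm, hi⟩) ?_
      rw [hL]
      simp [hi0]
    rw [this, mul_zero]
  · intro h
    exact absurd hi h

theorem isNilpotent_of_mem_jacobson [Uncountable k]
    (hrank : Module.rank k A ≤ Cardinal.aleph0) {z : A} (hz : z ∈ Ring.jacobson A) :
    IsNilpotent z := by
  have halg : IsAlgebraic k z := by
    by_contra htr
    have hunit : ∀ c : {c : k // c ≠ 0}, ∃ u : Aˣ, (u : A) = 1 - (c : k) • z := by
      intro c
      have h1 : -((c : k) • z) ∈ Ring.jacobson A := by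
        rw [Algebra.smul_def]
        exact (Ring.jacobson A).neg_mem ((Ring.jacobson A).mul_mem_left _ hz)
      obtain ⟨u, hu⟩ := isUnit_one_add h1
      exact ⟨u, by rw [hu, sub_eq_add_neg]⟩
    choose u hu using hunit
    have hli := (linearIndependent_inv htr u hu).cardinal_lift_le_rank
    have h1 : Cardinal.lift.{_} (Cardinal.mk {c : k // c ≠ 0}) ≤ Cardinal.aleph0 := by
      refine hli.trans ?_
      exact Cardinal.lift_le_aleph0.2 hrank
    have h2 : Cardinal.mk {c : k // c ≠ 0} ≤ Cardinal.aleph0 := Cardinal.lift_le_aleph0.1 h1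
    have h3 : Set.Countable {c : k | c ≠ 0} := Cardinal.le_aleph0_iff_set_countable.1 h2
    have h4 : Set.Countable (insert (0 : k) {c : k | c ≠ 0}) := h3.insert 0
    have h5 : (insert (0 : k) {c : k | c ≠ 0}) = Set.univ := by
      ext c
      by_cases hc : c = 0 <;> simp [hc]
    rw [h5] at h4
    exact Set.not_countable_univ h4
  obtain ⟨p, hp0, hp⟩ := halg
  obtain ⟨q, hq, hqd⟩ := exists_eq_pow_rootMultiplicity_mul_and_not_dvd p hp0 (0 : k)
  rw [C_0, sub_zero] at hq hqd
  have hq0 : q.coeff 0 ≠ 0 := fun h => hqd (X_dvd_iff.2 h)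
  have h1 : aeval z q = algebraMap k A (q.coeff 0) * (1 + algebraMap k A (q.coeff 0)⁻¹ *
      (aeval z (divX q) * z)) := by
    conv_lhs => rw [← divX_mul_X_add q]
    rw [map_add, map_mul, aeval_X, aeval_C, mul_add, mul_one, ← mul_assoc, ← map_mul,
      mul_inv_cancel₀ hq0, map_one, one_mul, add_comm]
  have h2 : IsUnit (aeval z q) := by
    rw [h1]
    refine IsUnit.mul ((IsUnit.mk0 _ hq0).map (algebraMap k A)) (isUnit_one_add ?_)
    exact (Ring.jacobson A).mul_mem_left _ ((Ring.jacobson A).mul_mem_left _ hz)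
  refine ⟨p.rootMultiplicity 0, ?_⟩
  rw [hq, map_mul, map_pow, aeval_X] at hp
  exact (h2.mul_left_eq_zero).1 hp

theorem rank_adjoin_le (s : Set A) (hs : s.Countable) :
    Module.rank k (Algebra.adjoin k s) ≤ Cardinal.aleph0 := by
  have h0 : Module.rank k (Algebra.adjoin k s) =
      Module.rank k (Subalgebra.toSubmodule (Algebra.adjoin k s)) := rfl
  rw [h0, Algebra.adjoin_eq_span]
  refine (rank_span_le _).trans ?_
  rw [Cardinal.le_aleph0_iff_set_countable, Submonoid.closure_eq_mrange]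
  have : Countable s := hs
  have h1 : Countable (FreeMonoid s) := inferInstanceAs (Countable (List s))
  exact Set.countable_range _

end amitsur

end Pool.Agent.Lib.MP_5dc4fa_al
end

section

/-!
Division rings that are algebras over an uncountable field and satisfy (P) are commutative.
-/

namespace Pool.Agent.Lib.MP_5dc4fa_al

open Polynomial

section poly

variable {k D : Type*} [Field k] [Ring D] [Algebra k D]

/-- Evaluation of polynomials over `D` at central scalars. -/
noncomputable def ev (t : k) : D[X] →+* D :=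
  Polynomial.eval₂RingHom' (RingHom.id D) (algebraMap k D t)
    (fun a => (Algebra.commutes t a).symm)

theorem ev_C (t : k) (a : D) : ev t (C a) = a := by
  simp [ev, Polynomial.eval₂RingHom']

theorem ev_X (t : k) : ev t (X : D[X]) = algebraMap k D t := by
  simp [ev, Polynomial.eval₂RingHom']

theorem ev_eq_sum (t : k) (p : D[X]) :
    ev t p = ∑ i ∈ Finset.range (p.natDegree + 1), t ^ i • p.coeff i := by
  change Polynomial.eval₂ (RingHom.id D) (algebraMap k D t) p = _
  rw [Polynomial.eval₂_eq_sum_range]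
  refine Finset.sum_congr rfl fun i _ => ?_
  rw [RingHom.id_apply, ← map_pow, Algebra.smul_def, Algebra.commutes]

theorem eq_zero_of_infinite_ev (p : D[X]) (S : Set k) (hS : S.Infinite)
    (h : ∀ t ∈ S, ev t p = 0) : p = 0 := by
  ext i
  rw [Polynomial.coeff_zero]
  by_cases hi : i ∈ Finset.range (p.natDegree + 1)
  swap
  · rw [Finset.mem_range, not_lt] at hi
    exact Polynomial.coeff_eq_zero_of_natDegree_lt (by omega)
  rw [← Module.forall_dual_apply_eq_zero_iff k]
  intro φ
  let q : k[X] := ∑ j ∈ Finset.range (p.natDegree + 1), Polynomial.C (φ (p.coeff j)) * X ^ j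
  have hq : ∀ t ∈ S, q.eval t = 0 := by
    intro t ht
    have h1 := congrArg φ (h t ht)
    rw [ev_eq_sum, map_sum, map_zero] at h1
    rw [Polynomial.eval_finsetSum, ← h1]
    refine Finset.sum_congr rfl fun j _ => ?_
    rw [Polynomial.eval_mul, Polynomial.eval_C, Polynomial.eval_pow, Polynomial.eval_X,
      map_smul, smul_eq_mul, mul_comm]
  have hq0 : q = 0 := Polynomial.eq_zero_of_infinite_isRoot q (hS.mono fun t ht => hq t ht)
  have hc : q.coeff i = φ (p.coeff i) := by
    simp only [q, Polynomial.finsetSum_coeff, Polynomial.coeff_C_mul, Polynomial.coeff_X_pow,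
      mul_ite, mul_one, mul_zero]
    rw [Finset.sum_ite_eq, if_pos hi]
  rw [← hc, hq0, Polynomial.coeff_zero]

end poly

/-- Pigeonhole over an uncountable field. -/
theorem exists_infinite {k : Type*} [Uncountable k] (Q : ℕ → k → Prop) (h : ∀ t, ∃ n, Q n t) :
    ∃ n, {t | Q n t}.Infinite := by
  by_contra hcon
  push Not at hcon
  have : (⋃ n, {t | Q n t}).Countable := by
    refine Set.countable_iUnion fun n => ?_
    exact (hcon n).countable
  have huniv : (⋃ n, {t | Q n t}) = Set.univ := by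
    ext t
    simp only [Set.mem_iUnion, Set.mem_univ, iff_true]
    exact h t
  rw [huniv] at this
  exact not_countable_iff.2 ‹Uncountable k› (Set.countable_univ_iff.1 this)

theorem coeff_zero_pow {D : Type*} [Ring D] (x y : D) (n : ℕ) :
    ((C x + C y * X) ^ n).coeff 0 = x ^ n := by
  induction n with
  | zero => simp
  | succ n ih => rw [pow_succ, Polynomial.mul_coeff_zero, ih, pow_succ]; simp

theorem coeff_one_pow {D : Type*} [Ring D] (x y : D) (n : ℕ) :
    ((C x + C y * X) ^ n).coeff 1 = ∑ i ∈ Finset.range n, x ^ i * y * x ^ (n - 1 - i) := by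
  induction n with
  | zero => simp [Polynomial.coeff_one]
  | succ n ih =>
    rw [pow_succ, Polynomial.mul_coeff_one, ih, coeff_zero_pow, Finset.sum_range_succ]
    simp only [Polynomial.coeff_add, Polynomial.coeff_C_zero, Polynomial.coeff_C_mul,
      Polynomial.coeff_X_zero, mul_zero, add_zero, Polynomial.coeff_X_one, mul_one,
      Polynomial.coeff_C_succ, zero_add, Nat.add_sub_cancel, Nat.sub_self, pow_zero]
    rw [add_comm, Finset.sum_mul]
    congr 1
    · refine Finset.sum_congr rfl fun i hi => ?_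
      have : i < n := Finset.mem_range.1 hi
      rw [mul_assoc, ← pow_succ]
      congr 2
      omega

section div

variable {k D : Type*} [Field k] [Uncountable k] [DivisionRing D] [Algebra k D]

variable (k) in
include k in
/-- First-order consequence of (P). -/
theorem first_order (hP : ∀ x y : D, ∃ n : ℕ, 2 ≤ n ∧ (x * y) ^ n = x ^ n * y ^ n) (a b : D) :
    ∃ n : ℕ, 2 ≤ n ∧ ∑ i ∈ Finset.range n, b ^ i * a * b ^ (n - i) = n • (a * b ^ n) := by
  obtain ⟨n, hn⟩ := exists_infinite (k := k)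
    (fun n t => 2 ≤ n ∧ ((1 + t • a) * b) ^ n = (1 + t • a) ^ n * b ^ n)
    (fun t => hP _ _)
  have h2 : 2 ≤ n := by
    obtain ⟨t, ht⟩ := hn.nonempty
    exact ht.1
  refine ⟨n, h2, ?_⟩
  have hpoly : (C b + C (a * b) * X) ^ n - (C (1 : D) + C a * X) ^ n * C (b ^ n) = 0 := by
    refine eq_zero_of_infinite_ev _ _ hn ?_
    rintro t ⟨-, ht⟩
    simp only [map_sub, map_mul, map_pow, map_add, ev_C, ev_X, sub_eq_zero]
    rw [Algebra.smul_def] at ht
    have e1 : b + a * b * algebraMap k D t = (1 + algebraMap k D t * a) * b := by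
      rw [add_mul, one_mul, ← Algebra.commutes t (a * b), mul_assoc]
    have e2 : (1 : D) + a * algebraMap k D t = 1 + algebraMap k D t * a := by
      rw [Algebra.commutes]
    rw [e1, e2]
    exact ht
  have h1 := congrArg (fun p : D[X] => p.coeff 1) hpoly
  simp only [Polynomial.coeff_sub, Polynomial.coeff_zero, Polynomial.coeff_mul_C] at h1
  rw [coeff_one_pow, coeff_one_pow, sub_eq_zero] at h1
  simp only [one_pow, one_mul, mul_one, Finset.sum_const, Finset.card_range] at h1
  rw [smul_mul_assoc] at h1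
  rw [← h1]
  refine Finset.sum_congr rfl fun i hi => ?_
  have : i < n := Finset.mem_range.1 hi
  have h3 : n - i = (n - 1 - i) + 1 := by omega
  rw [h3, pow_succ']
  simp only [mul_assoc]

/-- Iterated commutator `ad b ^ j a`. -/
def adIter (b : D) : ℕ → D → D
  | 0, a => a
  | j + 1, a => b * adIter b j a - adIter b j a * b

/-- Left multiplication by powers in terms of right multiplication and commutators. -/
theorem pow_mul_eq_sum (b a : D) (i : ℕ) :
    (C b + X) ^ i * C a =
      ∑ j ∈ Finset.range (i + 1), (i.choose j) • (C (adIter b j a) * (C b + X) ^ (i - j)) := by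
  induction i with
  | zero => simp [adIter]
  | succ i ih =>
    have hstep : ∀ w : D, (C b + X) * C w = C w * (C b + X) + C (b * w - w * b) := by
      intro w
      simp only [add_mul, mul_add, Polynomial.C_sub, Polynomial.C_mul, Polynomial.X_mul_C]
      abel
    rw [pow_succ', mul_assoc, ih, Finset.mul_sum]
    have e1 : ∀ j ∈ Finset.range (i + 1),
        (C b + X) * ((i.choose j) • (C (adIter b j a) * (C b + X) ^ (i - j))) =
          (i.choose j) • (C (adIter b j a) * (C b + X) ^ (i + 1 - j)) +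
          (i.choose j) • (C (adIter b (j + 1) a) * (C b + X) ^ (i + 1 - (j + 1))) := by
      intro j hj
      have hj' : j ≤ i := Nat.lt_succ_iff.1 (Finset.mem_range.1 hj)
      have h1 : i + 1 - j = (i - j) + 1 := by omega
      have h2 : i + 1 - (j + 1) = i - j := by omega
      rw [h1, h2, pow_succ', mul_smul_comm, ← mul_assoc, hstep, add_mul, smul_add, mul_assoc]
      rfl
    rw [Finset.sum_congr rfl e1, Finset.sum_add_distrib, Finset.sum_range_succ' _ (i + 1)]
    have e2 : ∀ j ∈ Finset.range (i + 1), ((i + 1).choose (j + 1)) •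
        (C (adIter b (j + 1) a) * (C b + X) ^ (i + 1 - (j + 1))) =
        (i.choose j) • (C (adIter b (j + 1) a) * (C b + X) ^ (i + 1 - (j + 1))) +
        (i.choose (j + 1)) • (C (adIter b (j + 1) a) * (C b + X) ^ (i + 1 - (j + 1))) := by
      intro j _
      rw [Nat.choose_succ_succ, add_smul]
    rw [Finset.sum_congr rfl e2, Finset.sum_add_distrib]
    have e3 : ∑ j ∈ Finset.range (i + 1), (i.choose j) •
        (C (adIter b j a) * (C b + X) ^ (i + 1 - j)) =
        (∑ j ∈ Finset.range (i + 1), (i.choose (j + 1)) •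
        (C (adIter b (j + 1) a) * (C b + X) ^ (i + 1 - (j + 1)))) +
        ((i + 1).choose 0) • (C (adIter b 0 a) * (C b + X) ^ (i + 1 - 0)) := by
      rw [Finset.sum_range_succ' _ i, Finset.sum_range_succ _ i]
      simp
    rw [e3]
    abel

theorem sum_choose_range (n j : ℕ) :
    ∑ i ∈ Finset.range n, i.choose j = n.choose (j + 1) := by
  induction n with
  | zero => simp
  | succ n ih => rw [Finset.sum_range_succ, ih, Nat.choose_succ_succ, add_comm]

/-- The powers of the monic linear polynomial `C b + X` are independent over `D`. -/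
theorem indep (b : D) (m : ℕ) (v : ℕ → D)
    (h : ∑ j ∈ Finset.range m, C (v j) * (C b + X) ^ (m - j) = 0) : ∀ j < m, v j = 0 := by
  have hmonic : ∀ e : ℕ, ((C b + X : D[X]) ^ e).Monic := fun e => by
    rw [add_comm]; exact (Polynomial.monic_X_add_C b).pow e
  have hdeg : ∀ e : ℕ, ((C b + X : D[X]) ^ e).natDegree = e := fun e => by
    rw [add_comm, (Polynomial.monic_X_add_C b).natDegree_pow, Polynomial.natDegree_X_add_C,
      mul_one]
  intro j
  induction j using Nat.strong_induction_on with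
  | _ j ih =>
    intro hj
    have h1 := congrArg (fun p : D[X] => p.coeff (m - j)) h
    simp only [Polynomial.finsetSum_coeff, Polynomial.coeff_C_mul, Polynomial.coeff_zero] at h1
    rw [Finset.sum_eq_single j] at h1
    · have h2 : ((C b + X : D[X]) ^ (m - j)).coeff (m - j) = 1 := by
        have := (hmonic (m - j)).coeff_natDegree
        rwa [hdeg] at this
      rwa [h2, mul_one] at h1
    · intro i hi hij
      rcases lt_or_gt_of_ne hij with hlt | hgt
      · rw [ih i hlt (hlt.trans hj), zero_mul]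
      · have : i < m := Finset.mem_range.1 hi
        rw [Polynomial.coeff_eq_zero_of_natDegree_lt, mul_zero]
        rw [hdeg]
        omega
    · intro hj'
      exact absurd (Finset.mem_range.2 hj) hj'

variable (k) in
include k in
theorem engel (hP : ∀ x y : D, ∃ n : ℕ, 2 ≤ n ∧ (x * y) ^ n = x ^ n * y ^ n) (a b : D) :
    ∃ m : ℕ, adIter b (m + 1) a = 0 := by
  obtain ⟨n, hn⟩ := exists_infinite (k := k)
    (fun n t => 2 ≤ n ∧ ∑ i ∈ Finset.range n,
      (b + algebraMap k D t) ^ i * a * (b + algebraMap k D t) ^ (n - i) =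
        n • (a * (b + algebraMap k D t) ^ n))
    (fun t => first_order k hP a _)
  have h2 : 2 ≤ n := by
    obtain ⟨t, ht⟩ := hn.nonempty
    exact ht.1
  have hpoly : ∑ i ∈ Finset.range n, (C b + X : D[X]) ^ i * C a * (C b + X) ^ (n - i) -
      n • (C a * (C b + X) ^ n) = 0 := by
    refine eq_zero_of_infinite_ev _ _ hn ?_
    rintro t ⟨-, ht⟩
    simp only [map_sub, map_mul, map_pow, map_add, map_sum, map_nsmul, ev_C, ev_X, sub_eq_zero]
    exact ht
  have e1 : ∀ i ∈ Finset.range n, (C b + X : D[X]) ^ i * C a * (C b + X) ^ (n - i) =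
      ∑ j ∈ Finset.range n, (i.choose j) • (C (adIter b j a) * (C b + X) ^ (n - j)) := by
    intro i hi
    have hi' : i < n := Finset.mem_range.1 hi
    rw [pow_mul_eq_sum, Finset.sum_mul]
    have e2 : ∀ j ∈ Finset.range (i + 1),
        (i.choose j) • (C (adIter b j a) * (C b + X) ^ (i - j)) * (C b + X) ^ (n - i) =
        (i.choose j) • (C (adIter b j a) * (C b + X) ^ (n - j)) := by
      intro j hj
      have hj' : j ≤ i := Nat.lt_succ_iff.1 (Finset.mem_range.1 hj)
      have h3 : n - j = (i - j) + (n - i) := by omega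
      rw [smul_mul_assoc, mul_assoc, ← pow_add, ← h3]
    rw [Finset.sum_congr rfl e2]
    refine Finset.sum_subset ?_ ?_
    · intro j hj
      rw [Finset.mem_range] at hj ⊢
      omega
    · intro j _ hj
      rw [Finset.mem_range, not_lt] at hj
      rw [Nat.choose_eq_zero_of_lt (by omega), zero_smul]
  rw [Finset.sum_congr rfl e1, Finset.sum_comm] at hpoly
  have e3 : ∀ j ∈ Finset.range n, ∑ i ∈ Finset.range n,
      (i.choose j) • (C (adIter b j a) * (C b + X : D[X]) ^ (n - j)) =
      (n.choose (j + 1)) • (C (adIter b j a) * (C b + X) ^ (n - j)) := by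
    intro j _
    rw [← Finset.sum_smul, sum_choose_range]
  rw [Finset.sum_congr rfl e3] at hpoly
  obtain ⟨m, rfl⟩ : ∃ m, n = m + 1 + 1 := ⟨n - 2, by omega⟩
  rw [Finset.sum_range_succ' _ (m + 1)] at hpoly
  have e4 : ((m + 1 + 1).choose (0 + 1)) •
      (C (adIter b 0 a) * (C b + X : D[X]) ^ (m + 1 + 1 - 0)) =
      (m + 1 + 1) • (C a * (C b + X) ^ (m + 1 + 1)) := by
    simp [adIter]
  rw [e4, add_sub_cancel_right] at hpoly
  have h5 : ∑ j ∈ Finset.range (m + 1),
      C (((m + 1 + 1).choose (j + 1 + 1)) • adIter b (j + 1) a) *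
        (C b + X : D[X]) ^ (m + 1 - j) = 0 := by
    rw [← hpoly]
    refine Finset.sum_congr rfl fun j hj => ?_
    have hj' : j < m + 1 := Finset.mem_range.1 hj
    have h6 : m + 1 + 1 - (j + 1) = m + 1 - j := by omega
    rw [h6, map_nsmul, smul_mul_assoc]
  have h7 := indep b (m + 1) _ h5 m (by omega)
  rw [Nat.choose_self, one_smul] at h7
  exact ⟨m, h7⟩

variable (k) in
include k in
/-- A division algebra over an uncountable field satisfying (P) is commutative. -/
theorem comm_of_condP (hP : ∀ x y : D, ∃ n : ℕ, 2 ≤ n ∧ (x * y) ^ n = x ^ n * y ^ n) (a b : D) :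
    a * b = b * a := by
  by_contra hne
  have hne' : adIter b 1 a ≠ 0 := by
    intro h
    exact hne (sub_eq_zero.1 h).symm
  have hex : ∃ m : ℕ, adIter b (m + 1) a = 0 := engel k hP a b
  classical
  let m := Nat.find hex
  have hm : adIter b (m + 1) a = 0 := Nat.find_spec hex
  have hm0 : m ≠ 0 := by
    intro h
    rw [h] at hm
    exact hne' hm
  obtain ⟨m', hm'⟩ : ∃ m', m = m' + 1 := ⟨m - 1, by omega⟩
  have hd : adIter b (m' + 1) a ≠ 0 := by
    have := Nat.find_min hex (m := m') (by omega)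
    exact this
  rw [hm'] at hm
  set c := adIter b m' a with hc
  set d := adIter b (m' + 1) a with hdd
  have h1 : b * c - c * b = d := rfl
  have h2 : b * d = d * b := sub_eq_zero.1 hm
  have hb0 : b ≠ 0 := by
    rintro rfl
    exact hne (by simp)
  -- the element `x = c * d⁻¹ * b` satisfies `b * x - x * b = b`
  set x := c * d⁻¹ * b with hx
  have hdb : b * d⁻¹ = d⁻¹ * b := by
    have : Commute b d := h2
    exact this.inv_right₀.eq
  have hbx : x * b - b * x = -b := by
    have e1 : b * x = (b * c) * d⁻¹ * b := by rw [hx]; simp only [mul_assoc]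
    have e2 : x * b = (c * b) * d⁻¹ * b := by
      calc x * b = c * (d⁻¹ * b) * b := by rw [hx]; simp only [mul_assoc]
        _ = c * (b * d⁻¹) * b := by rw [hdb]
        _ = (c * b) * d⁻¹ * b := by simp only [mul_assoc]
    rw [e1, e2, ← sub_mul, ← sub_mul, ← neg_sub, h1, neg_mul, neg_mul, mul_inv_cancel₀ hd, one_mul]
  obtain ⟨l, hl⟩ := engel k hP b x
  have h3 : ∀ j : ℕ, adIter x j b = (-1) ^ j * b := by
    intro j
    induction j with
    | zero => simp [adIter]
    | succ j ih =>
      rw [adIter, ih]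
      have e3 : x * ((-1) ^ j * b) = (-1) ^ j * (x * b) := by
        rw [← mul_assoc, ((Commute.neg_one_right x).pow_right j).eq, mul_assoc]
      have e4 : (-1) ^ j * b * x = (-1) ^ j * (b * x) := mul_assoc _ _ _
      rw [e3, e4, ← mul_sub, hbx, pow_succ]
      simp
  rw [h3] at hl
  have h4 : ((-1 : D) ^ (l + 1)) ≠ 0 := pow_ne_zero _ (neg_ne_zero.2 one_ne_zero)
  exact (mul_ne_zero h4 hb0) hl

end div

end Pool.Agent.Lib.MP_5dc4fa_al
end

section

/-!
Commutators of elements of an ideal satisfying (P) annihilate all simple modules, for algebras over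
an uncountable field.
-/

namespace Pool.Agent.Lib.MP_5dc4fa_al

section simple

variable {A : Type*} [Ring A] {M : Type*} [AddCommGroup M] [Module A M] [IsSimpleModule A M]

/-- If every element killing `v ≠ 0` kills `w` then `w` is the image of `v` under an
endomorphism. -/
theorem exists_end {v w : M} (hv : v ≠ 0) (h : ∀ c : A, c • v = 0 → c • w = 0) :
    ∃ δ : Module.End A M, δ v = w := by
  have hs := IsSimpleModule.toSpanSingleton_surjective A hv
  let e := (LinearMap.toSpanSingleton A M v).quotKerEquivOfSurjective hs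
  let g : (A ⧸ LinearMap.ker (LinearMap.toSpanSingleton A M v)) →ₗ[A] M :=
    (LinearMap.ker (LinearMap.toSpanSingleton A M v)).liftQ (LinearMap.toSpanSingleton A M w)
      (fun c hc => by
        rw [LinearMap.mem_ker, LinearMap.toSpanSingleton_apply] at hc ⊢
        exact h c hc)
  refine ⟨g.comp e.symm.toLinearMap, ?_⟩
  have h1 : e (Submodule.Quotient.mk 1) = v := by
    change (LinearMap.toSpanSingleton A M v) 1 = v
    simp
  have h2 : e.symm v = Submodule.Quotient.mk 1 := by
    rw [LinearEquiv.symm_apply_eq, h1]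
  change g (e.symm v) = w
  rw [h2]
  change (LinearMap.toSpanSingleton A M w) 1 = w
  simp

/-- If an ideal does not kill the simple module, it acts transitively on nonzero vectors. -/
theorem transitive_of_ne {B : Ideal A} [B.IsTwoSided] {b : A} (hb : b ∈ B) {m : M}
    (hbm : b • m ≠ 0) {v : M} (hv : v ≠ 0) (w : M) : ∃ x ∈ B, x • v = w := by
  obtain ⟨c, hc⟩ := IsSimpleModule.toSpanSingleton_surjective A hv m
  obtain ⟨d, hd⟩ := IsSimpleModule.toSpanSingleton_surjective A hbm w
  rw [LinearMap.toSpanSingleton_apply] at hc hd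
  refine ⟨d * b * c, B.mul_mem_right _ (B.mul_mem_left _ hb), ?_⟩
  rw [mul_smul, mul_smul, hc, hd]

theorem pow_smul_fix {A M : Type*} [Ring A] [AddCommGroup M] [Module A M] {z : A} {v : M}
    (h : z • v = v) (n : ℕ) : z ^ n • v = v := by
  induction n with
  | zero => simp
  | succ n ih => rw [pow_succ, mul_smul, h, ih]

/-- Under (P) the simple module is one-dimensional over its endomorphism ring. -/
theorem exists_end_of_condP {B : Ideal A} [B.IsTwoSided]
    (hP : ∀ x ∈ B, ∀ y ∈ B, ∃ n : ℕ, 2 ≤ n ∧ (x * y) ^ n = x ^ n * y ^ n)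
    {b : A} (hb : b ∈ B) {m : M} (hbm : b • m ≠ 0) {v : M} (hv : v ≠ 0) (w : M) :
    ∃ δ : Module.End A M, δ v = w := by
  by_cases h1 : ∀ c : A, c • v = 0 → c • w = 0
  · exact exists_end hv h1
  by_cases hw : w = 0
  · exact ⟨0, by simp [hw]⟩
  by_cases h2 : ∀ c : A, c • w = 0 → c • v = 0
  · obtain ⟨δ, hδ⟩ := exists_end hw h2
    have hδ0 : δ ≠ 0 := by
      rintro rfl
      exact hv (by simpa using hδ.symm)
    have hbij := LinearMap.bijective_of_ne_zero hδ0
    refine ⟨(LinearEquiv.ofBijective δ hbij).symm.toLinearMap, ?_⟩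
    change (LinearEquiv.ofBijective δ hbij).symm v = w
    rw [LinearEquiv.symm_apply_eq]
    exact hδ.symm
  exfalso
  push Not at h1 h2
  obtain ⟨c, hcv, hcw⟩ := h1
  obtain ⟨d, hdw, hdv⟩ := h2
  obtain ⟨x', hx'B, hx'⟩ := transitive_of_ne hb hbm hcw v
  obtain ⟨y', hy'B, hy'⟩ := transitive_of_ne hb hbm hdv w
  have hxv : (x' * c) • v = 0 := by rw [mul_smul, hcv, smul_zero]
  have hxw : (x' * c) • w = v := by rw [mul_smul, hx']
  have hyw : (y' * d) • w = 0 := by rw [mul_smul, hdw, smul_zero]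
  have hyv : (y' * d) • v = w := by rw [mul_smul, hy']
  obtain ⟨n, hn, h⟩ := hP (x' * c) (B.mul_mem_right _ hx'B) (y' * d) (B.mul_mem_right _ hy'B)
  have e1 : ((x' * c) * (y' * d)) ^ n • v = v :=
    pow_smul_fix (by rw [mul_smul, hyv, hxw]) n
  have e2 : ((x' * c) ^ n * (y' * d) ^ n) • v = 0 := by
    obtain ⟨j, rfl⟩ : ∃ j, n = j + 1 + 1 := ⟨n - 2, by omega⟩
    rw [mul_smul, pow_succ (y' * d), mul_smul, hyv, pow_succ (y' * d), mul_smul, hyw, smul_zero,
      smul_zero]
  rw [h, e2] at e1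
  exact hv e1.symm

theorem commutator_smul_eq_zero (k : Type*) [Field k] [Uncountable k] [Algebra k A] [Module k M]
    [IsScalarTower k A M] {B : Ideal A} [B.IsTwoSided]
    (hP : ∀ x ∈ B, ∀ y ∈ B, ∃ n : ℕ, 2 ≤ n ∧ (x * y) ^ n = x ^ n * y ^ n)
    {x y : A} (hx : x ∈ B) (hy : y ∈ B) (v : M) : (x * y - y * x) • v = 0 := by
  by_contra hne
  have hv : v ≠ 0 := by
    rintro rfl
    exact hne (smul_zero _)
  have hb : x * y - y * x ∈ B := B.sub_mem (B.mul_mem_right _ hx) (B.mul_mem_right _ hy)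
  classical
  have : SMulCommClass A k M := IsScalarTower.to_smulCommClass'
  have hinj : ∀ δ ε : Module.End A M, δ v = ε v → δ = ε := by
    intro δ ε h
    by_contra h0
    have h1 : δ - ε ≠ 0 := sub_ne_zero.2 h0
    have h2 := LinearMap.injective_of_ne_zero h1
    refine hv (h2 ?_)
    rw [map_zero, LinearMap.sub_apply, h, sub_self]
  have hΔ : ∀ a : A, ∃ δ : Module.End A M, δ v = a • v := fun a =>
    exists_end_of_condP hP hb hne hv _
  choose δ hδ using hΔ
  have hmul : ∀ a b : A, δ (a * b) = δ b * δ a := by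
    intro a b
    refine hinj _ _ ?_
    rw [hδ, Module.End.mul_apply, hδ, map_smul, hδ, mul_smul]
  have hone : δ 1 = 1 := hinj _ _ (by rw [hδ]; simp)
  have hpow : ∀ (a : A) (n : ℕ), δ (a ^ n) = δ a ^ n := by
    intro a n
    induction n with
    | zero => simpa using hone
    | succ n ih => rw [pow_succ, hmul, ih, pow_succ']
  have hsurj : ∀ ε : Module.End A M, ∃ a ∈ B, δ a = ε := by
    intro ε
    obtain ⟨a, haB, ha⟩ := transitive_of_ne hb hne hv (ε v)
    exact ⟨a, haB, hinj _ _ (by rw [hδ, ha])⟩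
  have hPΔ : ∀ α β : Module.End A M, ∃ n : ℕ, 2 ≤ n ∧ (α * β) ^ n = α ^ n * β ^ n := by
    intro α β
    obtain ⟨a, haB, rfl⟩ := hsurj α
    obtain ⟨b, hbB, rfl⟩ := hsurj β
    obtain ⟨n, hn, h⟩ := hP b hbB a haB
    refine ⟨n, hn, ?_⟩
    have := congrArg δ h
    rwa [hpow, hmul, hmul, hpow, hpow] at this
  have hcomm := comm_of_condP k hPΔ (δ x) (δ y)
  refine hne ?_
  rw [sub_smul, ← hδ, ← hδ, hmul, hmul, hcomm, sub_self]

end simple

end Pool.Agent.Lib.MP_5dc4fa_al
end

section

/-!
Commutators lie in the Jacobson radical of suitable subalgebras.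
-/

namespace Pool.Agent.Lib.MP_5dc4fa_al

theorem commutator_mem_jacobson (k : Type*) [Field k] [Uncountable k] {A : Type*} [Ring A]
    [Algebra k A] {B : Ideal A} [B.IsTwoSided]
    (hP : ∀ x ∈ B, ∀ y ∈ B, ∃ n : ℕ, 2 ≤ n ∧ (x * y) ^ n = x ^ n * y ^ n)
    {x y : A} (hx : x ∈ B) (hy : y ∈ B) : x * y - y * x ∈ Ring.jacobson A := by
  rw [Ring.jacobson_eq_sInf_isMaximal, Submodule.mem_sInf]
  intro m hm
  have hm' : Ideal.IsMaximal m := hm
  have : IsSimpleModule A (A ⧸ m) := isSimpleModule_iff_isCoatom.2 hm'.out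
  have h := commutator_smul_eq_zero k hP hx hy (Submodule.Quotient.mk 1 : A ⧸ m)
  rwa [← Submodule.Quotient.mk_smul, smul_eq_mul, mul_one, Submodule.Quotient.mk_eq_zero] at h

universe u v

/-- Every non-unital `k`-algebra embeds as the kernel of a ring homomorphism `U → k` from a
unital `k`-algebra. -/
theorem exists_unital_alg (k : Type v) [Field k] (R : Type u) [NonUnitalRing R] [Module k R]
    [IsScalarTower k R R] [SMulCommClass k R R] :
    ∃ (U : Type (max u v)) (_ : Ring U) (_ : Algebra k U) (ι : R →ₙ+* U) (π : U →+* k),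
      Function.Injective ι ∧ ∀ w : U, π w = 0 ↔ ∃ r, ι r = w := by
  refine ⟨Unitization k R, inferInstance, inferInstance,
    { toFun := fun r => Unitization.inr r
      map_mul' := fun x y => Unitization.inr_mul k x y
      map_zero' := Unitization.inr_zero k
      map_add' := fun x y => Unitization.inr_add k x y },
    { toFun := fun w => w.fst
      map_one' := by simp
      map_mul' := fun x y => by simp
      map_zero' := by simp
      map_add' := fun x y => by simp }, ?_, ?_⟩
  · intro x y h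
    exact Unitization.inr_injective (R := k) h
  · intro w
    constructor
    · intro h
      refine ⟨w.snd, ?_⟩
      change Unitization.inr w.snd = w
      have h' : w.fst = 0 := h
      ext
      · simp [h']
      · simp
    · rintro ⟨r, rfl⟩
      change (Unitization.inr r : Unitization k R).fst = 0
      simp

section main

variable {k : Type*} [Field k] {R : Type*} [NonUnitalRing R] {U : Type*} [Ring U] [Algebra k U]

/-- `z` lies in the Jacobson radical of every subalgebra containing a suitable finite set. -/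
def InRad (k : Type*) [Field k] {R : Type*} [NonUnitalRing R] {U : Type*} [Ring U] [Algebra k U]
    (ι : R →ₙ+* U) (z : R) : Prop :=
  ∃ S : Set R, S.Finite ∧ ∀ A : Subalgebra k U, (∀ s ∈ S, ι s ∈ A) →
    ∃ h : ι z ∈ A, (⟨ι z, h⟩ : A) ∈ Ring.jacobson A

variable {ι : R →ₙ+* U}

theorem InRad.zero : InRad k ι (0 : R) := by
  refine ⟨∅, Set.finite_empty, fun A _ => ⟨by rw [map_zero]; exact A.zero_mem, ?_⟩⟩
  convert (Ring.jacobson A).zero_mem
  exact map_zero ι

theorem InRad.add {x y : R} (hx : InRad k ι x) (hy : InRad k ι y) : InRad k ι (x + y) := by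
  obtain ⟨S, hS, h⟩ := hx
  obtain ⟨T, hT, h'⟩ := hy
  refine ⟨S ∪ T, hS.union hT, fun A hA => ?_⟩
  obtain ⟨h1, h2⟩ := h A fun s hs => hA s (Or.inl hs)
  obtain ⟨h3, h4⟩ := h' A fun s hs => hA s (Or.inr hs)
  refine ⟨by rw [map_add]; exact A.add_mem h1 h3, ?_⟩
  have h5 := (Ring.jacobson A).add_mem h2 h4
  have h6 : (⟨ι x, h1⟩ : A) + ⟨ι y, h3⟩ = ⟨ι (x + y), by rw [map_add]; exact A.add_mem h1 h3⟩ :=
    Subtype.ext (map_add ι x y).symm
  rwa [h6] at h5

theorem InRad.neg {x : R} (hx : InRad k ι x) : InRad k ι (-x) := by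
  obtain ⟨S, hS, h⟩ := hx
  refine ⟨S, hS, fun A hA => ?_⟩
  obtain ⟨h1, h2⟩ := h A hA
  refine ⟨by rw [map_neg]; exact A.neg_mem h1, ?_⟩
  have h5 := (Ring.jacobson A).neg_mem h2
  have h6 : -(⟨ι x, h1⟩ : A) = ⟨ι (-x), by rw [map_neg]; exact A.neg_mem h1⟩ :=
    Subtype.ext (map_neg ι x).symm
  rwa [h6] at h5

theorem InRad.mul_left {x y : R} (hy : InRad k ι y) : InRad k ι (x * y) := by
  obtain ⟨S, hS, h⟩ := hy
  refine ⟨insert x S, hS.insert x, fun A hA => ?_⟩
  obtain ⟨h1, h2⟩ := h A fun s hs => hA s (Or.inr hs)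
  have hx : ι x ∈ A := hA x (Or.inl rfl)
  refine ⟨by rw [map_mul]; exact A.mul_mem hx h1, ?_⟩
  have h5 := (Ring.jacobson A).mul_mem_left ⟨ι x, hx⟩ h2
  have h6 : (⟨ι x, hx⟩ : A) * ⟨ι y, h1⟩ = ⟨ι (x * y), by rw [map_mul]; exact A.mul_mem hx h1⟩ :=
    Subtype.ext (map_mul ι x y).symm
  rwa [h6] at h5

theorem InRad.mul_right {x y : R} (hx : InRad k ι x) : InRad k ι (x * y) := by
  obtain ⟨S, hS, h⟩ := hx
  refine ⟨insert y S, hS.insert y, fun A hA => ?_⟩
  obtain ⟨h1, h2⟩ := h A fun s hs => hA s (Or.inr hs)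
  have hy : ι y ∈ A := hA y (Or.inl rfl)
  refine ⟨by rw [map_mul]; exact A.mul_mem h1 hy, ?_⟩
  have h5 := (Ring.jacobson A).mul_mem_right (⟨ι y, hy⟩ : A) h2
  have h6 : (⟨ι x, h1⟩ : A) * ⟨ι y, hy⟩ = ⟨ι (x * y), by rw [map_mul]; exact A.mul_mem h1 hy⟩ :=
    Subtype.ext (map_mul ι x y).symm
  rwa [h6] at h5

theorem InRad.commutator [Uncountable k] {π : U →+* k} (hπ : ∀ w : U, π w = 0 ↔ ∃ r, ι r = w)
    (hP : CondP R) (x y : R) : InRad k ι (x * y - y * x) := by
  refine ⟨{x, y}, by simp, fun A hA => ?_⟩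
  have hx : ι x ∈ A := hA x (by simp)
  have hy : ι y ∈ A := hA y (by simp)
  let ρ : A →+* k := π.comp A.val.toRingHom
  have hρ : ∀ a : A, a ∈ RingHom.ker ρ ↔ ∃ r, ι r = (a : U) := fun a => hπ (a : U)
  have hPA : ∀ a ∈ RingHom.ker ρ, ∀ b ∈ RingHom.ker ρ,
      ∃ n : ℕ, 2 ≤ n ∧ (a * b) ^ n = a ^ n * b ^ n := by
    intro a ha b hb
    obtain ⟨r, hr⟩ := (hρ a).1 ha
    obtain ⟨s, hs⟩ := (hρ b).1 hb
    obtain ⟨n, hn, h⟩ := hP r s
    refine ⟨n + 1, by omega, Subtype.ext ?_⟩
    have h1 := congrArg ι h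
    rw [map_mul, ← iota_pow_succ, ← iota_pow_succ, ← iota_pow_succ, map_mul, hr, hs] at h1
    exact h1
  have h := commutator_mem_jacobson k hPA (x := (⟨ι x, hx⟩ : A)) (y := (⟨ι y, hy⟩ : A))
    ((hρ _).2 ⟨x, rfl⟩) ((hρ _).2 ⟨y, rfl⟩)
  have h7 : ι (x * y - y * x) = ι x * ι y - ι y * ι x := by rw [map_sub, map_mul, map_mul]
  refine ⟨by rw [h7]; exact A.sub_mem (A.mul_mem hx hy) (A.mul_mem hy hx), ?_⟩
  have h6 : (⟨ι x, hx⟩ : A) * ⟨ι y, hy⟩ - ⟨ι y, hy⟩ * ⟨ι x, hx⟩ = ⟨ι (x * y - y * x),
      by rw [h7]; exact A.sub_mem (A.mul_mem hx hy) (A.mul_mem hy hx)⟩ :=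
    Subtype.ext h7.symm
  rwa [h6] at h

theorem InRad.nil [Uncountable k] {z : R} (hι : Function.Injective ι) (hz : InRad k ι z) :
    ∃ m : ℕ, (fun w : R => w * z)^[m] z = 0 := by
  obtain ⟨S, hS, h⟩ := hz
  obtain ⟨h1, h2⟩ := h (Algebra.adjoin k (ι '' S)) fun s hs =>
    Algebra.subset_adjoin ⟨s, hs, rfl⟩
  obtain ⟨m, hm⟩ := isNilpotent_of_mem_jacobson
    (rank_adjoin_le (k := k) (ι '' S) (hS.image ι).countable) h2
  refine ⟨m, hι ?_⟩
  have h3 : (ι z) ^ m = 0 := congrArg Subtype.val hm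
  rw [← iota_pow_succ, pow_succ, h3, zero_mul, map_zero]

end main

end Pool.Agent.Lib.MP_5dc4fa_al
end
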